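import Pool.Agent.Helper95.AU.Defs
import Pool.Agent.Helper83.AF.FX
import Pool.Agent.Helper95.AF.Fd
import Pool.Agent.Helper33.AF.Rec
import Pool.Agent.Helper82.QR.Tan

/-! # Project AU: doubling (block U5a) -/

set_option autoImplicit false
open MeasureTheory Real Set Filter Topology
open scoped ENNReal

namespace Pool.Agent.Helper6.AU

open Pool.Agent.Helper18.UC (nn LL sqo rep toT)
open Pool.Agent.Helper46.QP (TT Td)
open Pool.Agent.Helper82.AN (sq)
open Pool.Agent.Helper95.AF
open Pool.Agent.Helper95.AU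

variable {d : ℕ}

theorem toT_st (a β : ℝ) (q : ℝ × ℝ) : toT (st a β q) = tst a β (toT q) := by
  refine Prod.ext ?_ rfl
  have h1 : (fourier 1 (q.1 : UnitAddCircle) : ℂ).im = Real.sin (2 * π * q.1) := Pool.Agent.Helper82.QR.sn_coe q.1
  show ((2 * q.1 - q.2 + a * Real.sin (2 * π * q.1) + β : ℝ) : UnitAddCircle) =
    (q.1 : UnitAddCircle) + (q.1 : UnitAddCircle) - (q.2 : UnitAddCircle) +
      ((a * (fourier 1 (q.1 : UnitAddCircle) : ℂ).im + β : ℝ) : UnitAddCircle)
  rw [h1, ← AddCircle.coe_add, ← AddCircle.coe_sub, ← AddCircle.coe_add]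
  congr 1
  ring

/-- the orbits of `Fa` -/
theorem Fa_iter (α : Td d) (a : ℝ) (b : Td d → ℝ) (n : ℕ) (p : Td d × TT) :
    (Fa α a b)^[n] p = (p.1 + n • α, toT (po a (sq α b p.1) n (rep p.2))) := by
  induction n with
  | zero =>
    refine Prod.ext ?_ ?_
    · show p.1 = p.1 + 0 • α
      rw [zero_smul, add_zero]
    · exact (Pool.Agent.Helper18.UC.toT_rep p.2).symm
  | succ n ih =>
    rw [Function.iterate_succ_apply', ih]
    refine Prod.ext ?_ ?_
    · show p.1 + n • α + α = p.1 + (n + 1) • α
      rw [add_smul, one_smul, add_assoc]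
    · exact (toT_st a (b (p.1 + n • α)) (po a (sq α b p.1) n (rep p.2))).symm

/-- `Fa` preserves the volume -/
theorem Fa_mp (α : Td d) (a : ℝ) {b : Td d → ℝ} (hb : Continuous b) :
    MeasurePreserving (Fa α a b) volume volume := by
  have hm : Measurable (Function.uncurry fun (θ : Td d) (z : TT) => tst a (b θ) z) := by
    have h1 : Measurable fun p : Td d × TT => (a * (fourier 1 p.2.1 : ℂ).im + b p.1 : ℝ) := by
      refine Measurable.add ?_ (hb.measurable.comp measurable_fst)
      exact (Complex.measurable_im.comp ((fourier 1).continuous.measurable.comp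
        (measurable_fst.comp measurable_snd))).const_mul a
    have h2 : Measurable fun p : Td d × TT => ((a * (fourier 1 p.2.1 : ℂ).im + b p.1 : ℝ) : UnitAddCircle) :=
      (AddCircle.continuous_mk' (1 : ℝ)).measurable.comp h1
    have h3 : Measurable fun p : Td d × TT => p.2.1 := measurable_fst.comp measurable_snd
    have h4 : Measurable fun p : Td d × TT => p.2.2 := measurable_snd.comp measurable_snd
    exact (((h3.add h3).sub h4).add h2).prodMk h3
  exact (measurePreserving_add_right (volume : Measure (Td d)) α).skew_product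
    (μc := (volume : Measure TT)) (μd := (volume : Measure TT))
    (g := fun θ z => tst a (b θ) z) hm
    (Filter.Eventually.of_forall fun θ => (Pool.Agent.Helper83.AF.tst_mp a (b θ)).map_eq)

theorem lg_int (α : Td d) (a : ℝ) {b : Td d → ℝ} (hb : Continuous b) (n : ℕ) :
    Integrable (fun p : Td d × TT => Real.log (gA α a b n p)) volume := by
  refine Integrable.of_bound (Real.measurable_log.comp (Pool.Agent.Helper83.AF.measurable_gA α a hb n)).aestronglyMeasurable
    (Real.log 2 + n * Real.log (LL a)) (Filter.Eventually.of_forall fun p => ?_)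
  rw [Real.norm_eq_abs, abs_of_nonneg (Pool.Agent.Helper83.AF.log_gA_le α a b n p).1]
  exact (Pool.Agent.Helper83.AF.log_gA_le α a b n p).2

theorem lo_eq (α : Td d) (a : ℝ) (b : Td d → ℝ) (m : ℕ) (p : Td d × TT) :
    lo a (sq α b p.1) m (rep p.2) = Real.log (gA α a b m p) + Real.log (gA α a b m ((Fa α a b)^[m] p)) -
      Real.log (gA α a b (2 * m) p) := by
  have h1 : gA α a b m ((Fa α a b)^[m] p) = nn (pM a (shb (sq α b p.1) m) m (po a (sq α b p.1) m (rep p.2))) := by
    rw [Fa_iter, Pool.Agent.Helper33.AF.shb_sq]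
    show nn (pM a (sq α b (p.1 + m • α)) m (rep (toT (po a (sq α b p.1) m (rep p.2))))) = _
    rw [pM_tor]
  rw [h1]
  rfl

/-- the identity behind doubling -/
theorem dbl_eq {α : Td d} {a : ℝ} {b : Td d → ℝ} (hb : Continuous b) (m : ℕ) :
    mg α a b (2 * m) = 2 * mg α a b m - ml α a b m := by
  have hmp := (Fa_mp α a hb).iterate m
  have h1 := lg_int α a hb m
  have h2 := lg_int α a hb (2 * m)
  have h3 : Integrable (fun p => Real.log (gA α a b m ((Fa α a b)^[m] p))) (volume : Measure (Td d × TT)) :=
    (hmp.integrable_comp h1.aestronglyMeasurable).2 h1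
  have h4 : ∫ p, Real.log (gA α a b m ((Fa α a b)^[m] p)) = ∫ p : Td d × TT, Real.log (gA α a b m p) := by
    conv_rhs => rw [← hmp.map_eq]
    rw [integral_map hmp.measurable.aemeasurable (by rw [hmp.map_eq]; exact h1.aestronglyMeasurable)]
  have h6 : Integrable (fun p => Real.log (gA α a b m p) + Real.log (gA α a b m ((Fa α a b)^[m] p)))
      (volume : Measure (Td d × TT)) := h1.add h3
  unfold ml
  simp only [lo_eq]
  rw [integral_sub h6 h2, integral_add h1 h3, h4]
  unfold mg
  ring

/-- **U5a**: doubling -/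
theorem dbl {α : Td d} {a : ℝ} {b : Td d → ℝ} (hb : Continuous b) (m : ℕ) :
    2 * mg α a b m - ml α a b m ≤ mg α a b (2 * m) := (dbl_eq hb m).ge

end Pool.Agent.Helper6.AU
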